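import Pool.Agent.U644.BBL.Defs

/-!
# Height pairings and the Lefschetz and Hodge index statements: definitions

The standing data are as in `Pool.Agent.U644.BBL.Defs`: `𝒱` is a class of smooth proper varieties
over a field which is closed under products, `C` has the formal properties of the Chow groups with
rational coefficients of these varieties and `H` those of a Weil cohomology theory with cycle class
maps. `HomTriv H i x` means that `x` is a homologically trivial class of codimension `i`.
-/

set_option autoImplicit false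

open CategoryTheory AlgebraicGeometry Finset

universe u v w

namespace Pool.Agent.U935.HT

open Pool.Agent.H914 Pool.Agent.H914.VarClass Pool.Agent.H914.VarClass.Obj Pool.Agent.W492.BB
  Pool.Agent.U644.BBL

variable {k : Type u} [Field k] {𝒱 : VarClass k} {C : TheoryData.{u, v, 0} 𝒱 ℚ} {K : Type w}
  [Field K] (H : WeilTheoryData.{u, v, w} C K)

/-- The formal properties of the Beilinson-Bloch height pairing: `ht X x y` is the height pairing of
the homologically trivial classes `x ∈ CH^i(X)`, `y ∈ CH^j(X)`, `i + j = dim X + 1` (other values are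
irrelevant). It is biadditive and symmetric, multiplication by a cycle class is self-adjoint, and it
satisfies the projection formula. -/
structure HeightPairing where
  /-- the pairing -/
  ht : ∀ X : 𝒱.Obj, C.A X → C.A X → ℝ
  add : ∀ {X : 𝒱.Obj} {i j : ℕ} {x x' y : C.A X}, i + j = X.dim + 1 → HomTriv H i x →
    HomTriv H i x' → HomTriv H j y → ht X (x + x') y = ht X x y + ht X x' y
  symm : ∀ {X : 𝒱.Obj} {i j : ℕ} {x y : C.A X}, i + j = X.dim + 1 → HomTriv H i x →
    HomTriv H j y → ht X x y = ht X y x
  mul : ∀ {X : 𝒱.Obj} {i j l : ℕ} {x y z : C.A X}, i + j + l = X.dim + 1 → HomTriv H i x →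
    HomTriv H j y → C.Deg l z → ht X (z * x) y = ht X x (z * y)
  proj : ∀ {X Y : 𝒱.Obj} (f : X ⟶ Y) {i j : ℕ} {x : C.A X} {y : C.A Y}, i + j = X.dim + 1 →
    HomTriv H i x → HomTriv H j y → ht Y (C.down f x) y = ht X x (C.up f y)

/-- The Lefschetz statement: `L^e : CH^i(X)^0 → CH^(i+e)(X)^0` is an isomorphism. -/
def Lefschetz (X : 𝒱.Obj) (L : C.A X) (i e : ℕ) : Prop :=
  (∀ x, HomTriv H i x → L ^ e * x = 0 → x = 0) ∧
    ∀ y, HomTriv H (i + e) y → ∃ x, HomTriv H i x ∧ L ^ e * x = y

/-- The Hodge index statement: `(-1)^i (x, L^e x) > 0` for all nonzero `x ∈ CH^i(X)^0` with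
`L^(e+1) x = 0`. -/
def HodgeIndex (T : HeightPairing H) (X : 𝒱.Obj) (L : C.A X) (i e : ℕ) : Prop :=
  ∀ x, HomTriv H i x → x ≠ 0 → L ^ (e + 1) * x = 0 → 0 < (-1) ^ i * T.ht X x (L ^ e * x)

/-- Beilinson's Lefschetz conjecture for `(X, L)`: the first question of the problem. -/
def Q1 (X : 𝒱.Obj) (L : C.A X) : Prop := ∀ i e : ℕ, 2 * i + e = X.dim + 1 → Lefschetz H X L i e

/-- Beilinson's Hodge index conjecture for `(X, L)`: the second question of the problem. -/
def Q2 (T : HeightPairing H) (X : 𝒱.Obj) (L : C.A X) : Prop :=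
  ∀ i e : ℕ, 2 * i + e = X.dim + 1 → HodgeIndex H T X L i e

/-- The subspace of the homologically trivial classes of codimension `i`. -/
def homSub (X : 𝒱.Obj) (i : ℕ) : Submodule ℚ (C.A X) where
  carrier := {x | HomTriv H i x}
  add_mem' := fun {a b} ha hb => ⟨(C.gr X i).add_mem ha.1 hb.1, by rw [map_add, ha.2, hb.2, add_zero]⟩
  zero_mem' := ⟨(C.gr X i).zero_mem, map_zero _⟩
  smul_mem' := fun q a ha => ⟨(C.gr X i).smul_mem q ha.1, by
    rw [Algebra.smul_def, map_mul, ha.2, mul_zero]⟩

/-- The height pairings of `X` are nondegenerate. -/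
def Nondegenerate (T : HeightPairing H) (X : 𝒱.Obj) : Prop :=
  ∀ (i j : ℕ) (x : C.A X), i + j = X.dim + 1 → HomTriv H i x →
    (∀ y, HomTriv H j y → T.ht X x y = 0) → x = 0

variable (C)

/-- `P` looks like a projective space with the hyperplane class `h`: for all `X` the cycle classes
on `X × P` are the combinations of the powers `h^a`, `a ≤ dim P`, with coefficients from `X`
(projective bundle theorem, in the form which gives the coefficients as push-forwards),
`h^(dim P + 1) = 0` and the push-forward of `h^a` to `X` is `0` for `a < dim P` and `1` for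
`a = dim P`. -/
structure IsProjSpace (P : 𝒱.Obj) (h : C.A P) : Prop where
  deg : C.Deg 1 h
  pow : h ^ (P.dim + 1) = 0
  push_lt : ∀ (X : 𝒱.Obj) (a : ℕ), a < P.dim → C.down (fst X P) (C.up (snd X P) h ^ a) = 0
  push_top : ∀ X : 𝒱.Obj, C.down (fst X P) (C.up (snd X P) h ^ P.dim) = 1
  span : ∀ (X : 𝒱.Obj) (z : C.A (X.prod P)), z = ∑ a ∈ range (P.dim + 1),
    C.up (fst X P) (C.down (fst X P) (z * C.up (snd X P) h ^ (P.dim - a))) * C.up (snd X P) h ^ a

variable {C}

/-- The polarisation `L ⊠ O(1)` of `X × P`. -/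
noncomputable def pol {X P : 𝒱.Obj} (L : C.A X) (h : C.A P) : C.A (X.prod P) :=
  C.up (fst X P) L + C.up (snd X P) h

end Pool.Agent.U935.HT
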