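import Pool.Agent.U935.HT.Main

/-!
# Height pairings and the Lefschetz and Hodge index statements: all varieties
-/

set_option autoImplicit false
set_option linter.unusedSectionVars false

open CategoryTheory AlgebraicGeometry Finset

universe u v w

namespace Pool.Agent.U935.HT

open Pool.Agent.H914 Pool.Agent.H914.VarClass Pool.Agent.H914.VarClass.Obj Pool.Agent.W492.BB
  Pool.Agent.U644.BBL

variable {k : Type u} [Field k] {𝒱 : VarClass k} {C : TheoryData.{u, v, 0} 𝒱 ℚ} {K : Type w}
  [Field K] {H : WeilTheoryData.{u, v, w} C K} [hC : IsChow C] [hH : IsWeil H]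
  {X P Y : 𝒱.Obj} {h : C.A P} {L : C.A X}

/-- the Hodge index statement implies that `L^e` is injective -/
theorem inj_of_hodge (T : HeightPairing H) {i e : ℕ} (hd : 2 * i + e = X.dim + 1)
    (hQ : HodgeIndex H T X L i e) {x : C.A X} (hx : HomTriv H i x) (hx0 : L ^ e * x = 0) :
    x = 0 := by
  by_contra hne
  have h1 := hQ x hx hne (by rw [pow_succ', mul_assoc, hx0, mul_zero])
  rw [hx0, T.symm (i := i) (j := i + e) (by omega) hx (ht_zero _),
    p_zero T (i := i + e) (j := i) (by omega) hx, mul_zero] at h1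
  exact lt_irrefl _ h1

/-- multiplication by `L^e` on homologically trivial classes -/
noncomputable def lmul (hL : C.Deg 1 L) (i e : ℕ) :
    homSub H X i →ₗ[ℚ] homSub H X (i + e) where
  toFun x := ⟨L ^ e * x.1, ht_mem x.2 (deg_pow hL e)⟩
  map_add' x y := by
    apply Subtype.ext
    simp [mul_add]
  map_smul' q x := by
    apply Subtype.ext
    simp

/-- if the two Chow groups have the same finite dimension then the Hodge index statement implies
the Lefschetz statement -/
theorem lefschetz_of_hodge (T : HeightPairing H) (hL : C.Deg 1 L) {i e : ℕ}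
    (hd : 2 * i + e = X.dim + 1) (hf : FiniteDimensional ℚ (homSub H X (i + e)))
    (hf2 : FiniteDimensional ℚ (homSub H X i))
    (hr : Module.finrank ℚ (homSub H X i) = Module.finrank ℚ (homSub H X (i + e)))
    (hQ : HodgeIndex H T X L i e) : Lefschetz H X L i e := by
  refine ⟨fun x hx hx0 => inj_of_hodge T hd hQ hx hx0, fun y hy => ?_⟩
  have h1 : Function.Injective (lmul (H := H) hL i e) := by
    rw [← LinearMap.ker_eq_bot, LinearMap.ker_eq_bot']
    intro x hx
    apply Subtype.ext
    exact inj_of_hodge T hd hQ x.2 (congrArg Subtype.val hx)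
  have h2 := (LinearMap.injective_iff_surjective_of_finrank_eq_finrank hr).1 h1
  obtain ⟨x, hx⟩ := h2 ⟨y, hy⟩
  exact ⟨x.1, x.2, congrArg Subtype.val hx⟩

/-- the two statements imply that the height pairings are nondegenerate -/
theorem nondeg (T : HeightPairing H) (hL : C.Deg 1 L)
    (htop : ∀ (i : ℤ) (x : C.A X), C.Deg i x → (X.dim : ℤ) < i → x = 0) (h1 : Q1 H X L)
    (h2 : Q2 H T X L) : Nondegenerate H T X := by
  have key : ∀ i e : ℕ, 2 * i + e = X.dim + 1 → ∀ x : C.A X, HomTriv H i x →
      (∀ y, HomTriv H (i + e) y → T.ht X x y = 0) → x = 0 := by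
    intro i
    induction i with
    | zero =>
      intro e he x hx hy
      by_contra hne
      have h3 := h2 0 e he x hx hne (by
        have h4 := (ht_mem hx (deg_pow hL (e + 1))).1
        exact htop _ _ h4 (by push_cast; omega))
      rw [hy _ (ht_mem hx (deg_pow hL e)), mul_zero] at h3
      exact lt_irrefl _ h3
    | succ i ih =>
      intro e he x hx hy
      have hL1 : HomTriv H (i + (e + 2)) (L ^ (e + 1) * x) := by
        have := ht_mem hx (deg_pow hL (e + 1))
        rwa [show i + 1 + (e + 1) = i + (e + 2) by omega] at this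
      obtain ⟨hinj, hsurj⟩ := h1 i (e + 2) (by omega)
      obtain ⟨z, hz, hz2⟩ := hsurj _ hL1
      have hLz : HomTriv H (i + 1) (L * z) := ht_mul1 hz hL
      have hx0 : HomTriv H (i + 1) (x - L * z) := ht_sub hx hLz
      have hx0k : L ^ (e + 1) * (x - L * z) = 0 := by
        rw [mul_sub, ← hz2, ← mul_assoc, ← pow_succ, sub_self]
      have hx0y := ht_mem hx0 (deg_pow hL e)
      have e1 : T.ht X (L * z) (L ^ e * (x - L * z)) = 0 := by
        rw [T.mul (i := i) (j := i + 1 + e) (l := 1) (by omega) hz hx0y (by exact_mod_cast hL),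
          ← mul_assoc, ← pow_succ', hx0k, T.symm (i := i) (j := i + (e + 2)) (by omega) hz
            (ht_zero _), p_zero T (i := i + (e + 2)) (j := i) (by omega) hz]
      have e2 : T.ht X (x - L * z) (L ^ e * (x - L * z)) = 0 := by
        rw [p_sub T (i := i + 1) (j := i + 1 + e) (by omega) hx hLz hx0y, e1, hy _ hx0y, sub_zero]
      have hx1 : x - L * z = 0 := by
        by_contra hne
        have h3 := h2 (i + 1) e he _ hx0 hne hx0k
        rw [e2, mul_zero] at h3
        exact lt_irrefl _ h3
      have hxz : x = L * z := sub_eq_zero.1 hx1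
      have hz0 : z = 0 := by
        apply ih (e + 2) (by omega) z hz
        intro y' hy'
        obtain ⟨z', hz', hzz⟩ := hsurj y' hy'
        have h4 : HomTriv H (i + 1 + e) (L ^ (e + 1) * z') := by
          have := ht_mem hz' (deg_pow hL (e + 1))
          rwa [show i + (e + 1) = i + 1 + e by omega] at this
        have h5 := hy _ h4
        rw [hxz, T.mul (i := i) (j := i + 1 + e) (l := 1) (by omega) hz h4 (by exact_mod_cast hL),
          ← mul_assoc, ← pow_succ', hzz] at h5
        exact h5
      rw [hxz, hz0, mul_zero]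
  intro i j x hij hx hy
  rcases le_or_gt i j with hle | hlt
  · obtain ⟨e, rfl⟩ := Nat.exists_eq_add_of_le hle
    exact key i e (by omega) x hx hy
  · obtain ⟨e, rfl⟩ := Nat.exists_eq_add_of_lt hlt
    obtain ⟨hinj, hsurj⟩ := h1 j (e + 1) (by omega)
    obtain ⟨x', hx', hxx⟩ := hsurj x hx
    have h3 : x' = 0 := by
      apply key j (e + 1) (by omega) x' hx'
      intro y hy'
      obtain ⟨y', hy1, hyy⟩ := hsurj y hy'
      rw [← hyy, ← T.mul (i := j) (j := j) (l := e + 1) (by omega) hx' hy1 (deg_pow hL _), hxx]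
      exact hy _ hy1
    rw [← hxx, h3, mul_zero]

/-- A family of polarised varieties which is stable under products with projective spaces `P m`
with their hyperplane classes `h m`: `Pol X L` means that `L ∈ CH^1(X)` is one of the polarisations
of `X`. -/
structure IsFamily (P : ℕ → 𝒱.Obj) (h : ∀ m, C.A (P m)) (Pol : ∀ X : 𝒱.Obj, C.A X → Prop) :
    Prop where
  dim : ∀ m, (P m).dim = m
  proj : ∀ m, IsProjSpace C (P m) (h m)
  deg : ∀ {X : 𝒱.Obj} {L : C.A X}, Pol X L → C.Deg 1 L
  prod : ∀ {X : 𝒱.Obj} {L : C.A X} (m : ℕ), Pol X L → Pol (X.prod (P m)) (pol L (h m))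

/-- Beilinson's Lefschetz conjecture is a statement about the exponent one, and about arbitrarily
large dimensions. -/
theorem all_lefschetz {P : ℕ → 𝒱.Obj} {h : ∀ m, C.A (P m)} {Pol : ∀ X : 𝒱.Obj, C.A X → Prop}
    (hF : IsFamily P h Pol) (S : Set ℕ) (hS : ∀ n, ∃ i ∈ S, n ≤ i) :
    (∀ X L, Pol X L → Q1 H X L) ↔
      ∀ (X : 𝒱.Obj) (L : C.A X), Pol X L → ∀ i ∈ S, X.dim = 2 * i → Lefschetz H X L i 1 := by
  constructor
  · intro hQ X L hL i _ hi
    exact hQ X L hL i 1 (by omega)
  · intro hQ
    have key : ∀ (X : 𝒱.Obj) (L : C.A X), Pol X L → ∀ i e : ℕ, 2 * i + e = X.dim → i + e ∈ S →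
        Lefschetz H X L i (e + 1) := by
      intro X L hL i e hie hm
      have h1 := hQ _ _ (hF.prod e hL) (i + e) hm (by rw [dim_prod, hF.dim]; omega)
      have h2 := lefschetz_iff (H := H) (hF.proj e) (hF.deg hL) i
      rw [hF.dim] at h2
      exact h2.2 h1
    have key2 : ∀ (X : 𝒱.Obj) (L : C.A X), Pol X L → ∀ i : ℕ, 2 * i = X.dim →
        Lefschetz H X L i 1 := by
      intro X L hL i hi
      obtain ⟨m, hm, him⟩ := hS i
      obtain ⟨a, rfl⟩ := Nat.exists_eq_add_of_le him
      have h1 := key _ _ (hF.prod a hL) i a (by rw [dim_prod, hF.dim]; omega) hm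
      have h2 := lefschetz_lower (H := H) (hF.proj a) (hF.deg hL) (i := i)
      rw [hF.dim] at h2
      exact h2 h1
    intro X L hL i e hie
    rcases e with - | e
    · refine ⟨fun x _ hx0 => by rwa [pow_zero, one_mul] at hx0, fun y hy => ⟨y, hy, ?_⟩⟩
      rw [pow_zero, one_mul]
    · have h1 := key2 _ _ (hF.prod e hL) (i + e) (by rw [dim_prod, hF.dim]; omega)
      have h2 := lefschetz_iff (H := H) (hF.proj e) (hF.deg hL) i
      rw [hF.dim] at h2
      exact h2.2 h1

/-- Beilinson's Hodge index conjecture is a statement about the middle dimension, and about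
arbitrarily large dimensions. -/
theorem all_hodge (T : HeightPairing H) {P : ℕ → 𝒱.Obj} {h : ∀ m, C.A (P m)}
    {Pol : ∀ X : 𝒱.Obj, C.A X → Prop} (hF : IsFamily P h Pol) (S : Set ℕ)
    (hS : ∀ n, ∃ i ∈ S, n ≤ i) :
    (∀ X L, Pol X L → Q2 H T X L) ↔
      ∀ (X : 𝒱.Obj) (L : C.A X), Pol X L → ∀ i ∈ S, X.dim + 1 = 2 * i →
        ∀ x, HomTriv H i x → x ≠ 0 → L * x = 0 → 0 < (-1) ^ i * T.ht X x x := by
  constructor
  · intro hQ X L hL i _ hi x hx hx0 hxk
    have h1 := hQ X L hL i 0 (by omega) x hx hx0 (by rwa [zero_add, pow_one])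
    rwa [pow_zero, one_mul] at h1
  · intro hQ
    have key : ∀ (X : 𝒱.Obj) (L : C.A X), Pol X L → ∀ i e : ℕ, 2 * i + e = X.dim + 1 →
        i + e ∈ S → HodgeIndex H T X L i e := by
      intro X L hL i e hie hm
      have h1 : HodgeIndex H T (X.prod (P e)) (pol L (h e)) (i + e) 0 := by
        intro x hx hx0 hxk
        rw [zero_add, pow_one] at hxk
        rw [pow_zero, one_mul]
        exact hQ _ _ (hF.prod e hL) (i + e) hm (by rw [dim_prod, hF.dim]; omega) x hx hx0 hxk
      have h2 := hodge_iff (H := H) (hF.proj e) (hF.deg hL) T (i := i) (by rw [hF.dim]; omega)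
      rw [hF.dim] at h2
      exact h2.2 h1
    have key2 : ∀ (X : 𝒱.Obj) (L : C.A X), Pol X L → ∀ i : ℕ, 2 * i = X.dim + 1 →
        HodgeIndex H T X L i 0 := by
      intro X L hL i hi
      obtain ⟨m, hm, him⟩ := hS i
      obtain ⟨a, rfl⟩ := Nat.exists_eq_add_of_le him
      have h1 := key _ _ (hF.prod a hL) i a (by rw [dim_prod, hF.dim]; omega) hm
      have h2 := hodge_lower (H := H) (hF.proj a) (hF.deg hL) T (i := i) hi
      rw [hF.dim] at h2
      exact h2 h1
    intro X L hL i e hie
    have h1 := key2 _ _ (hF.prod e hL) (i + e) (by rw [dim_prod, hF.dim]; omega)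
    have h2 := hodge_iff (H := H) (hF.proj e) (hF.deg hL) T (i := i) (by rw [hF.dim]; omega)
    rw [hF.dim] at h2
    exact h2.2 h1

end Pool.Agent.U935.HT
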