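import Pool.Agent.U935.HT.Defs
import Pool.Agent.U935.BBR.Main

/-!
# Height pairings and the Lefschetz and Hodge index statements: proofs
-/

set_option autoImplicit false
set_option linter.unusedSectionVars false

open CategoryTheory AlgebraicGeometry Finset

universe u v w

namespace Pool.Agent.U935.HT

open Pool.Agent.H914 Pool.Agent.H914.VarClass Pool.Agent.H914.VarClass.Obj Pool.Agent.W492.BB
  Pool.Agent.U644.BBL

variable {k : Type u} [Field k] {𝒱 : VarClass k} {C : TheoryData.{u, v, 0} 𝒱 ℚ} {K : Type w}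
  [Field K] {H : WeilTheoryData.{u, v, w} C K} [hC : IsChow C] [hH : IsWeil H]
  {X P Y : 𝒱.Obj} {h : C.A P} {L : C.A X}

/-- the Chow ring is commutative -/
noncomputable abbrev crg (C : TheoryData.{u, v, 0} 𝒱 ℚ) [IsChow C] (X : 𝒱.Obj) : CommRing (C.A X) :=
  { C.ring X with mul_comm := fun a b => chow_mul_comm a b }

section basic

lemma ht_mem {i j : ℕ} {x z : C.A X} (hx : HomTriv H i x) (hz : C.Deg j z) :
    HomTriv H (i + j) (z * x) := by
  refine ⟨?_, by rw [map_mul, hx.2, mul_zero]⟩
  have h1 := C.mul_mem hz hx.1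
  rw [show ((i + j : ℕ) : ℤ) = j + i by push_cast; ring]
  exact h1

lemma ht_mul1 {i : ℕ} {x L : C.A X} (hx : HomTriv H i x) (hL : C.Deg 1 L) :
    HomTriv H (i + 1) (L * x) := ht_mem (j := 1) hx (by exact_mod_cast hL)

lemma sq_one (n : ℕ) : ((-1 : C.A X) ^ n) * (-1) ^ n = 1 := by
  rw [← pow_add, ← two_mul, pow_mul, neg_one_sq, one_pow]

lemma ht_zero (i : ℕ) : HomTriv H i (0 : C.A X) := (homSub H X i).zero_mem

lemma ht_add {i : ℕ} {x y : C.A X} (hx : HomTriv H i x) (hy : HomTriv H i y) :
    HomTriv H i (x + y) := (homSub H X i).add_mem hx hy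

lemma ht_neg {i : ℕ} {x : C.A X} (hx : HomTriv H i x) : HomTriv H i (-x) :=
  (homSub H X i).neg_mem hx

lemma ht_sub {i : ℕ} {x y : C.A X} (hx : HomTriv H i x) (hy : HomTriv H i y) :
    HomTriv H i (x - y) := (homSub H X i).sub_mem hx hy

lemma ht_pull (f : X ⟶ Y) {i : ℕ} {y : C.A Y} (hy : HomTriv H i y) : HomTriv H i (C.pull f y) :=
  ⟨C.pull_mem f hy.1, by rw [hH.isClassMap.cl_pull, hy.2]; exact map_zero _⟩

lemma ht_push (f : X ⟶ Y) {i j : ℕ} {x : C.A X} (hij : i + Y.dim = j + X.dim)
    (hx : HomTriv H i x) : HomTriv H j (C.push f x) := by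
  refine ⟨?_, by rw [hH.isClassMap.cl_push, hx.2]; exact map_zero _⟩
  have h1 := C.push_mem (δ := 1) f hx.1
  rwa [show ((i : ℤ) + 1 * (Y.dim - X.dim)) = j by omega] at h1

lemma deg_pow {ζ : C.A X} (hζ : C.Deg 1 ζ) (n : ℕ) : C.Deg n (ζ ^ n) :=
  Pool.Agent.U935.BBR.pow_mem hζ n

lemma deg_neg {i : ℤ} {z : C.A X} (hz : C.Deg i z) : C.Deg i (-z) := (C.gr X i).neg_mem hz

end basic

section pairing

variable (T : HeightPairing H)

lemma p_zero {i j : ℕ} {y : C.A X} (hij : i + j = X.dim + 1) (hy : HomTriv H j y) :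
    T.ht X 0 y = 0 := by
  have h1 := T.add hij (ht_zero (H := H) (X := X) i) (ht_zero i) hy
  rw [add_zero] at h1
  linarith

lemma p_neg {i j : ℕ} {x y : C.A X} (hij : i + j = X.dim + 1) (hx : HomTriv H i x)
    (hy : HomTriv H j y) : T.ht X (-x) y = -T.ht X x y := by
  have h1 := T.add hij hx (ht_neg hx) hy
  rw [add_neg_cancel, p_zero T hij hy] at h1
  linarith

lemma p_sub {i j : ℕ} {x x' y : C.A X} (hij : i + j = X.dim + 1) (hx : HomTriv H i x)
    (hx' : HomTriv H i x') (hy : HomTriv H j y) :
    T.ht X (x - x') y = T.ht X x y - T.ht X x' y := by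
  rw [sub_eq_add_neg, T.add hij hx (ht_neg hx') hy, p_neg T hij hx' hy, sub_eq_add_neg]

lemma p_neg' {i j : ℕ} {x y : C.A X} (hij : i + j = X.dim + 1) (hx : HomTriv H i x)
    (hy : HomTriv H j y) : T.ht X x (-y) = -T.ht X x y := by
  have hij' : j + i = X.dim + 1 := by omega
  rw [T.symm hij hx (ht_neg hy), p_neg T hij' hy hx, T.symm hij' hy hx]

lemma p_add' {i j : ℕ} {x y y' : C.A X} (hij : i + j = X.dim + 1) (hx : HomTriv H i x)
    (hy : HomTriv H j y) (hy' : HomTriv H j y') : T.ht X x (y + y') = T.ht X x y + T.ht X x y' := by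
  have hij' : j + i = X.dim + 1 := by omega
  rw [T.symm hij hx (ht_add hy hy'), T.add hij' hy hy' hx, T.symm hij' hy hx, T.symm hij' hy' hx]

lemma p_sum {i j : ℕ} {f : ℕ → C.A X} {y : C.A X} (hij : i + j = X.dim + 1) (n : ℕ)
    (hf : ∀ b < n, HomTriv H i (f b)) (hy : HomTriv H j y) :
    HomTriv H i (∑ b ∈ range n, f b) ∧
      T.ht X (∑ b ∈ range n, f b) y = ∑ b ∈ range n, T.ht X (f b) y := by
  induction n with
  | zero =>
    rw [sum_range_zero, sum_range_zero]
    exact ⟨ht_zero i, p_zero T hij hy⟩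
  | succ n ih =>
    obtain ⟨h1, h2⟩ := ih (fun b hb => hf b (by omega))
    rw [sum_range_succ, sum_range_succ]
    exact ⟨ht_add h1 (hf n (by omega)), by rw [T.add hij h1 (hf n (by omega)) hy, h2]⟩

/-- the sign of `(-L)^m` -/
lemma p_sign {i j l : ℕ} {x y L : C.A X} (hij : i + j + l = X.dim + 1) (hx : HomTriv H i x)
    (hy : HomTriv H j y) (hL : C.Deg 1 L) :
    T.ht X x ((-L) ^ l * y) = (-1) ^ l * T.ht X x (L ^ l * y) := by
  rcases Nat.even_or_odd l with he | ho
  · rw [he.neg_pow, he.neg_one_pow, one_mul]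
  · rw [ho.neg_pow, ho.neg_one_pow, neg_mul, p_neg' T (i := i) (j := j + l) (by omega) hx
      (ht_mem hy (deg_pow hL l))]
    ring

end pairing

section proj

/-- the coefficient of `h^a` -/
noncomputable def co (h : C.A P) (a : ℕ) (z : C.A (X.prod P)) : C.A X :=
  C.push (fst X P) (z * C.pull (snd X P) h ^ (P.dim - a))

/-- the class with given coefficients -/
noncomputable def mk (h : C.A P) (y : ℕ → C.A X) : C.A (X.prod P) :=
  ∑ b ∈ range (P.dim + 1), C.pull (fst X P) (y b) * C.pull (snd X P) h ^ b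

variable (hP : IsProjSpace C P h)

include hP

lemma pow_zero_of {n : ℕ} (hn : P.dim < n) : C.pull (snd X P) h ^ n = 0 := by
  obtain ⟨c, rfl⟩ := Nat.exists_eq_add_of_le hn
  rw [pow_add, ← map_pow (C.pull (snd X P)) h, hP.pow, map_zero, zero_mul]

lemma push_pow (n : ℕ) : C.push (fst X P) (C.pull (snd X P) h ^ n) = if n = P.dim then 1 else 0 := by
  rcases lt_trichotomy n P.dim with h1 | h1 | h1
  · rw [if_neg h1.ne]
    exact hP.push_lt X n h1
  · rw [if_pos h1, h1]
    exact hP.push_top X
  · rw [if_neg h1.ne', pow_zero_of hP h1, map_zero]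

lemma co_mk {a : ℕ} (ha : a ≤ P.dim) (y : ℕ → C.A X) : co h a (mk h y) = y a := by
  rw [co, mk, sum_mul, map_sum, sum_eq_single a]
  · rw [mul_assoc, ← pow_add, C.proj_left, push_pow hP, if_pos (by omega), mul_one]
  · intro b hb hba
    rw [mem_range] at hb
    rw [mul_assoc, ← pow_add, C.proj_left, push_pow hP, if_neg (by omega), mul_zero]
  · intro h1
    exact absurd (mem_range.2 (by omega)) h1

lemma mk_co (z : C.A (X.prod P)) : mk h (fun a => co h a z) = z := (hP.span X z).symm

lemma co_ext {z w : C.A (X.prod P)} (hzw : ∀ a ≤ P.dim, co h a z = co h a w) : z = w := by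
  rw [← mk_co hP z, ← mk_co hP w, mk, mk]
  apply sum_congr rfl
  intro a ha
  rw [mem_range] at ha
  rw [hzw a (by omega)]

omit hP in
lemma co_add (a : ℕ) (z w : C.A (X.prod P)) : co h a (z + w) = co h a z + co h a w := by
  rw [co, add_mul, map_add]; rfl

lemma co_pol_zero (z : C.A (X.prod P)) : co h 0 (pol L h * z) = L * co h 0 z := by
  have e1 : pol L h * z * C.pull (snd X P) h ^ (P.dim - 0) =
      C.pull (fst X P) L * (z * C.pull (snd X P) h ^ (P.dim - 0)) +
        z * C.pull (snd X P) h ^ (P.dim + 1) := by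
    rw [pol, Nat.sub_zero, add_mul, add_mul, mul_assoc, pow_succ,
      chow_mul_comm (C.pull (snd X P) h) z, mul_assoc z,
      chow_mul_comm (C.pull (snd X P) h) (C.pull (snd X P) h ^ P.dim)]
  rw [co, e1, map_add, C.proj_left, pow_zero_of hP (Nat.lt_succ_self _), mul_zero, map_zero, add_zero]
  rfl

omit hP in
lemma co_pol_succ {a : ℕ} (ha : a + 1 ≤ P.dim) (z : C.A (X.prod P)) :
    co h (a + 1) (pol L h * z) = L * co h (a + 1) z + co h a z := by
  have e1 : pol L h * z * C.pull (snd X P) h ^ (P.dim - (a + 1)) =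
      C.pull (fst X P) L * (z * C.pull (snd X P) h ^ (P.dim - (a + 1))) +
        z * C.pull (snd X P) h ^ (P.dim - a) := by
    rw [show P.dim - a = (P.dim - (a + 1)) + 1 by omega, pol, add_mul, add_mul, mul_assoc, pow_succ,
      chow_mul_comm (C.pull (snd X P) h) z, mul_assoc z,
      chow_mul_comm (C.pull (snd X P) h) (C.pull (snd X P) h ^ (P.dim - (a + 1)))]
  rw [co, e1, map_add, C.proj_left]
  rfl

lemma ht_co {j a : ℕ} (ha : a ≤ P.dim) (haj : a ≤ j) {z : C.A (X.prod P)} (hz : HomTriv H j z) :
    HomTriv H (j - a) (co h a z) := by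
  rw [co]
  apply ht_push (i := j + (P.dim - a)) _ (by rw [dim_prod]; omega)
  rw [chow_mul_comm]
  exact ht_mem hz (deg_pow (C.pull_mem _ hP.deg) _)

lemma ht_mk {j : ℕ} {y : ℕ → C.A X} (hj : P.dim ≤ j) (hy : ∀ b ≤ P.dim, HomTriv H (j - b) (y b)) :
    HomTriv H j (mk h y) := by
  rw [mk]
  apply (homSub H (X.prod P) j).sum_mem
  intro b hb
  rw [mem_range] at hb
  have h1 := ht_mem (ht_pull (fst X P) (hy b (by omega)))
    (deg_pow (C.pull_mem (snd X P) hP.deg) b)
  rw [chow_mul_comm, show j = j - b + b by omega]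
  exact h1

/-- the height pairing on the product in terms of the coefficients -/
lemma pair_mk (T : HeightPairing H) {j : ℕ} (hj : P.dim ≤ j) (hd : j + j = (X.prod P).dim + 1)
    {y : ℕ → C.A X} (hy : ∀ b ≤ P.dim, HomTriv H (j - b) (y b)) {z : C.A (X.prod P)}
    (hz : HomTriv H j z) :
    T.ht (X.prod P) (mk h y) z = ∑ b ∈ range (P.dim + 1), T.ht X (co h (P.dim - b) z) (y b) := by
  have hb1 : ∀ b < P.dim + 1, HomTriv H j (C.pull (fst X P) (y b) * C.pull (snd X P) h ^ b) := by
    intro b hb
    have h1 := ht_mem (ht_pull (fst X P) (hy b (by omega)))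
      (deg_pow (C.pull_mem (snd X P) hP.deg) b)
    rw [chow_mul_comm]
    rwa [show j - b + b = j by omega] at h1
  rw [mk, (p_sum T hd _ hb1 hz).2]
  apply sum_congr rfl
  intro b hb
  rw [mem_range] at hb
  have h1 := ht_pull (H := H) (fst X P) (hy b (by omega))
  have h2 := deg_pow (C.pull_mem (snd X P) hP.deg) b
  have h3 := ht_mem hz h2
  have hd' := hd
  rw [dim_prod] at hd'
  rw [chow_mul_comm, T.mul (i := j - b) (j := j) (l := b) (by omega) h1 hz h2,
    T.symm (i := j - b) (j := j + b) (by omega) h1 h3,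
    ← T.proj (fst X P) (i := j + b) (j := j - b) (by omega) h3 (hy b (by omega))]
  congr 1
  rw [co, show P.dim - (P.dim - b) = b by omega, chow_mul_comm]

end proj

section main

variable (hP : IsProjSpace C P h) (hL : C.Deg 1 L)

/-- the class with the leading coefficient `x` killed by `L + h` up to the last coefficient -/
noncomputable def lift (h : C.A P) (L x : C.A X) : C.A (X.prod P) :=
  mk h (fun a => (-L) ^ (P.dim - a) * x)

include hP hL

lemma ht_lift {i : ℕ} {x : C.A X} (hx : HomTriv H i x) : HomTriv H (i + P.dim) (lift h L x) := by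
  apply ht_mk hP (by omega)
  intro b hb
  have := ht_mem hx (deg_pow (deg_neg hL) (P.dim - b))
  rwa [show i + P.dim - b = i + (P.dim - b) by omega]

lemma pol_lift (x : C.A X) (hx : L ^ (P.dim + 1) * x = 0) : pol L h * lift h L x = 0 := by
  apply co_ext hP
  intro a ha
  have e0 : co h a (0 : C.A (X.prod P)) = 0 := by rw [co, zero_mul, map_zero]
  rw [e0]
  rcases a with - | a
  · rw [co_pol_zero hP, lift, co_mk hP (by omega), Nat.sub_zero]
    have h1 : (-L) ^ P.dim = (-1) ^ P.dim * L ^ P.dim := neg_pow L _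
    have h2 : L * ((-L) ^ P.dim * x) = (-1) ^ P.dim * (L ^ (P.dim + 1) * x) := by
      rw [h1, pow_succ', ← mul_assoc, ← mul_assoc, chow_mul_comm L ((-1) ^ P.dim), mul_assoc,
        mul_assoc, ← mul_assoc L]
    rw [h2, hx, mul_zero]
  · rw [co_pol_succ (by omega), lift, co_mk hP (by omega), co_mk hP (by omega),
      show P.dim - a = (P.dim - (a + 1)) + 1 by omega, pow_succ', mul_assoc, neg_mul,
      add_neg_cancel]

/-- the classes killed by `L + h` -/
lemma eq_lift {z : C.A (X.prod P)} (hz : pol L h * z = 0) :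
    z = lift h L (co h P.dim z) ∧ L ^ (P.dim + 1) * co h P.dim z = 0 := by
  have e0 : ∀ a, co h a (0 : C.A (X.prod P)) = 0 := fun a => by rw [co, zero_mul, map_zero]
  have h1 : ∀ a, a + 1 ≤ P.dim → co h a z = -(L * co h (a + 1) z) := by
    intro a ha
    have h2 := co_pol_succ (h := h) (L := L) ha z
    rw [hz, e0] at h2
    exact eq_neg_of_add_eq_zero_right h2.symm
  have h3 : ∀ c, c ≤ P.dim → co h (P.dim - c) z = (-L) ^ c * co h P.dim z := by
    intro c
    induction c with
    | zero => intro _; rw [Nat.sub_zero, pow_zero, one_mul]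
    | succ c ih =>
      intro hc
      rw [h1 _ (by omega), show P.dim - (c + 1) + 1 = P.dim - c by omega, ih (by omega), pow_succ',
        mul_assoc, neg_mul]
  constructor
  · apply co_ext hP
    intro a ha
    rw [lift, co_mk hP ha]
    have := h3 (P.dim - a) (by omega)
    rwa [show P.dim - (P.dim - a) = a by omega] at this
  · have h4 := co_pol_zero (L := L) hP z
    have h5 := h3 P.dim le_rfl
    rw [Nat.sub_self] at h5
    rw [hz, e0, h5, neg_pow L] at h4
    have h6 : L * ((-1) ^ P.dim * L ^ P.dim * co h P.dim z) =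
        (-1) ^ P.dim * (L ^ (P.dim + 1) * co h P.dim z) := by
      rw [pow_succ', ← mul_assoc, ← mul_assoc, chow_mul_comm L ((-1) ^ P.dim), mul_assoc,
        mul_assoc, ← mul_assoc L]
    rw [h6] at h4
    have h7 := congrArg (fun t => (-1) ^ P.dim * t) h4
    simp only [mul_zero, ← mul_assoc] at h7
    rw [sq_one, one_mul] at h7
    exact h7.symm

/-- **The Lefschetz statement on `X` in terms of the exponent one on `X × P`.** -/
theorem lefschetz_iff (i : ℕ) :
    Lefschetz H X L i (P.dim + 1) ↔ Lefschetz H (X.prod P) (pol L h) (i + P.dim) 1 := by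
  constructor
  · rintro ⟨hinj, hsurj⟩
    constructor
    · intro z hz hz0
      rw [pow_one] at hz0
      obtain ⟨h1, h2⟩ := eq_lift hP hL hz0
      have h3 : HomTriv H i (co h P.dim z) := by
        have := ht_co hP le_rfl (by omega) hz
        rwa [show i + P.dim - P.dim = i by omega] at this
      rw [h1, hinj _ h3 h2, lift, mk]
      apply sum_eq_zero
      intro b _
      rw [mul_zero, map_zero, zero_mul]
    · intro w hw
      have hwc : ∀ c ≤ P.dim, HomTriv H (i + (c + 1)) (co h (P.dim - c) w) := by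
        intro c hc
        have := ht_co hP (a := P.dim - c) (by omega) (by omega) hw
        rwa [show i + P.dim + 1 - (P.dim - c) = i + (c + 1) by omega] at this
      let v : ℕ → C.A X := fun n => Nat.rec 0 (fun c r => co h (P.dim - c) w - L * r) n
      have v0 : v 0 = 0 := rfl
      have vs : ∀ c, v (c + 1) = co h (P.dim - c) w - L * v c := fun c => rfl
      have hv : ∀ c ≤ P.dim, HomTriv H (i + c) (v c) := by
        intro c
        induction c with
        | zero => intro _; rw [v0]; exact ht_zero _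
        | succ c ih =>
          intro hc
          rw [vs]
          exact ht_sub (hwc c (by omega)) (ht_mul1 (ih (by omega)) hL)
      have h1 : HomTriv H (i + (P.dim + 1)) (co h 0 w - L * v P.dim) := by
        have h2 := hwc P.dim le_rfl
        rw [Nat.sub_self] at h2
        exact ht_sub h2 (ht_mul1 (hv _ le_rfl) hL)
      obtain ⟨x, hx, hx2⟩ := hsurj _ h1
      let x' : C.A X := (-1) ^ P.dim * x
      have hx' : HomTriv H i x' := by
        rcases neg_one_pow_eq_or (C.A X) P.dim with h | h
        · simp only [x', h, one_mul]; exact hx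
        · simp only [x', h, neg_mul, one_mul]; exact ht_neg hx
      let y : ℕ → C.A X := fun a => (-L) ^ (P.dim - a) * x' + v (P.dim - a)
      refine ⟨mk h y, ?_, ?_⟩
      · apply ht_mk hP (by omega)
        intro b hb
        rw [show i + P.dim - b = i + (P.dim - b) by omega]
        exact ht_add (ht_mem hx' (deg_pow (deg_neg hL) _)) (hv _ (by omega))
      · rw [pow_one]
        apply co_ext hP
        intro a ha
        rcases a with - | a
        · rw [co_pol_zero hP, co_mk hP (by omega)]
          have h2 : L * ((-L) ^ P.dim * x') = L ^ (P.dim + 1) * x := by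
            simp only [x']
            rw [neg_pow L, pow_succ', ← mul_assoc, ← mul_assoc, ← mul_assoc,
              chow_mul_comm L ((-1) ^ P.dim), mul_assoc ((-1) ^ P.dim),
              chow_mul_comm ((-1) ^ P.dim) (L * L ^ P.dim), mul_assoc (L * L ^ P.dim),
              sq_one, mul_one]
          simp only [y, Nat.sub_zero]
          rw [mul_add, h2, hx2]
          abel
        · rw [co_pol_succ (by omega), co_mk hP (by omega), co_mk hP (by omega)]
          simp only [y]
          rw [show P.dim - a = (P.dim - (a + 1)) + 1 by omega, vs, pow_succ', mul_assoc,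
            show P.dim - (P.dim - (a + 1)) = a + 1 by omega, neg_mul, mul_add]
          abel
  · rintro ⟨hinj, hsurj⟩
    constructor
    · intro x hx hx0
      have h1 := hinj _ (ht_lift hP hL hx) (by rw [pow_one]; exact pol_lift hP hL x hx0)
      have h2 := congrArg (co h P.dim) h1
      rw [lift, co_mk hP le_rfl, Nat.sub_self, pow_zero, one_mul, co, zero_mul, map_zero] at h2
      exact h2
    · intro y hy
      obtain ⟨z, hz, hz2⟩ := hsurj (C.pull (fst X P) y) (by
        have := ht_pull (H := H) (fst X P) hy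
        rwa [show i + (P.dim + 1) = i + P.dim + 1 by omega] at this)
      rw [pow_one] at hz2
      have e1 : ∀ a ≤ P.dim, co h a (C.pull (fst X P) y) = if a = 0 then y else 0 := by
        intro a ha
        rw [co, C.proj_left, push_pow hP]
        by_cases h0 : a = 0
        · rw [if_pos (by omega), if_pos h0, mul_one]
        · rw [if_neg (by omega), if_neg h0, mul_zero]
      have h1 : ∀ a, a + 1 ≤ P.dim → co h a z = -(L * co h (a + 1) z) := by
        intro a ha
        have h2 := co_pol_succ (h := h) (L := L) ha z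
        rw [hz2, e1 _ ha, if_neg (by omega)] at h2
        exact eq_neg_of_add_eq_zero_right h2.symm
      have h3 : ∀ c, c ≤ P.dim → co h (P.dim - c) z = (-L) ^ c * co h P.dim z := by
        intro c
        induction c with
        | zero => intro _; rw [Nat.sub_zero, pow_zero, one_mul]
        | succ c ih =>
          intro hc
          rw [h1 _ (by omega), show P.dim - (c + 1) + 1 = P.dim - c by omega, ih (by omega),
            pow_succ', mul_assoc, neg_mul]
      have h4 := co_pol_zero (L := L) hP z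
      have h5 := h3 P.dim le_rfl
      rw [Nat.sub_self] at h5
      rw [hz2, e1 0 (by omega), if_pos rfl, h5] at h4
      have h6 : HomTriv H i (co h P.dim z) := by
        have := ht_co hP le_rfl (by omega) hz
        rwa [show i + P.dim - P.dim = i by omega] at this
      refine ⟨(-1) ^ P.dim * co h P.dim z, ?_, ?_⟩
      · rcases neg_one_pow_eq_or (C.A X) P.dim with h | h
        · rw [h, one_mul]; exact h6
        · rw [h, neg_mul, one_mul]; exact ht_neg h6
      · rw [h4, neg_pow L, pow_succ', ← mul_assoc, ← mul_assoc, ← mul_assoc,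
          chow_mul_comm L ((-1) ^ P.dim), chow_mul_comm (L * L ^ P.dim), mul_assoc ((-1) ^ P.dim) L]

/-- **The Hodge index statement on `X` in terms of the middle dimension on `X × P`.** -/
theorem hodge_iff (T : HeightPairing H) {i : ℕ} (hd : 2 * i + P.dim = X.dim + 1) :
    HodgeIndex H T X L i P.dim ↔ HodgeIndex H T (X.prod P) (pol L h) (i + P.dim) 0 := by
  have hd2 : i + P.dim + (i + P.dim) = (X.prod P).dim + 1 := by rw [dim_prod]; omega
  have key : ∀ x, HomTriv H i x → T.ht (X.prod P) (lift h L x) (lift h L x) =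
      (P.dim + 1) * ((-1) ^ P.dim * T.ht X x (L ^ P.dim * x)) := by
    intro x hx
    have hb : ∀ b ≤ P.dim, HomTriv H (i + P.dim - b) ((-L) ^ (P.dim - b) * x) := by
      intro b hb
      have := ht_mem hx (deg_pow (deg_neg hL) (P.dim - b))
      rwa [show i + P.dim - b = i + (P.dim - b) by omega]
    rw [show T.ht (X.prod P) (lift h L x) (lift h L x) =
      T.ht (X.prod P) (mk h (fun a => (-L) ^ (P.dim - a) * x)) (lift h L x) from rfl,
      pair_mk hP T (by omega) hd2 hb (ht_lift hP hL hx)]
    have h1 : ∀ b ∈ range (P.dim + 1), T.ht X (co h (P.dim - b) (lift h L x))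
        ((-L) ^ (P.dim - b) * x) = (-1) ^ P.dim * T.ht X x (L ^ P.dim * x) := by
      intro b hb'
      rw [mem_range] at hb'
      rw [lift, co_mk hP (by omega), show P.dim - (P.dim - b) = b by omega,
        T.mul (i := i) (j := i + (P.dim - b)) (l := b) (by omega) hx
          (ht_mem hx (deg_pow (deg_neg hL) _)) (deg_pow (deg_neg hL) b), ← mul_assoc, ← pow_add,
        show b + (P.dim - b) = P.dim by omega]
      exact p_sign T (i := i) (j := i) (by omega) hx hx hL
    rw [sum_congr rfl h1, sum_const, card_range, nsmul_eq_mul]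
    push_cast
    ring
  have hpos : (0 : ℝ) < P.dim + 1 := by positivity
  have hsgn : ∀ t : ℝ, (-1) ^ (i + P.dim) * ((P.dim + 1) * ((-1) ^ P.dim * t)) =
      (P.dim + 1) * ((-1) ^ i * t) := by
    intro t
    have h1 : ((-1 : ℝ) ^ P.dim) * (-1) ^ P.dim = 1 := by rw [← mul_pow]; norm_num
    rw [pow_add]
    linear_combination ((-1) ^ i * (P.dim + 1) * t) * h1
  constructor
  · intro hQ z hz hz0 hzk
    rw [zero_add, pow_one] at hzk
    obtain ⟨h1, h2⟩ := eq_lift hP hL hzk
    have h3 : HomTriv H i (co h P.dim z) := by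
      have := ht_co hP le_rfl (by omega) hz
      rwa [show i + P.dim - P.dim = i by omega] at this
    have h4 : co h P.dim z ≠ 0 := by
      intro h5
      apply hz0
      rw [h1, h5, lift, mk]
      apply sum_eq_zero
      intro b _
      rw [mul_zero, map_zero, zero_mul]
    rw [pow_zero, one_mul, h1, key _ h3, hsgn]
    exact mul_pos hpos (hQ _ h3 h4 h2)
  · intro hQ x hx hx0 hxk
    have h1 : lift h L x ≠ 0 := by
      intro h2
      have h3 := congrArg (co h P.dim) h2
      rw [lift, co_mk hP le_rfl, Nat.sub_self, pow_zero, one_mul, co, zero_mul, map_zero] at h3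
      exact hx0 h3
    have h2 := hQ _ (ht_lift hP hL hx) h1 (by rw [zero_add, pow_one]; exact pol_lift hP hL x hxk)
    rw [pow_zero, one_mul, key _ hx, hsgn] at h2
    exact (mul_pos_iff_of_pos_left hpos).1 h2

omit hL in
lemma pol_pow_pull {x : C.A X} (hx : L * x = 0) (n : ℕ) :
    pol L h ^ n * C.pull (fst X P) x = C.pull (snd X P) h ^ n * C.pull (fst X P) x := by
  induction n with
  | zero => rw [pow_zero, pow_zero]
  | succ n ih =>
    have h1 : pol L h * C.pull (fst X P) x = C.pull (snd X P) h * C.pull (fst X P) x := by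
      rw [pol, add_mul, ← map_mul (C.pull (fst X P)), hx, map_zero, zero_add]
    rw [pow_succ, mul_assoc, h1, ← mul_assoc, chow_mul_comm (pol L h ^ n), mul_assoc, ih,
      ← mul_assoc, ← pow_succ']

omit hL in
lemma push_pull_pow (x : C.A X) :
    C.push (fst X P) (C.pull (snd X P) h ^ P.dim * C.pull (fst X P) x) = x := by
  rw [C.proj_right, push_pow hP, if_pos rfl, one_mul]

/-- the Hodge index statement descends from `X × P` to `X` -/
theorem hodge_lower (T : HeightPairing H) {i : ℕ} (hd : 2 * i = X.dim + 1)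
    (hQ : HodgeIndex H T (X.prod P) (pol L h) i P.dim) : HodgeIndex H T X L i 0 := by
  intro x hx hx0 hxk
  rw [zero_add, pow_one] at hxk
  have h1 := ht_pull (H := H) (fst X P) hx
  have h2 := pol_pow_pull (h := h) hP hxk
  have hx1 : C.pull (fst X P) x ≠ 0 := by
    intro h0
    apply hx0
    rw [← push_pull_pow hP x, h0, mul_zero, map_zero]
  have h3 := hQ _ h1 hx1 (by rw [h2, pow_zero_of hP (Nat.lt_succ_self _), zero_mul])
  have h4 : HomTriv H (i + P.dim) (C.pull (snd X P) h ^ P.dim * C.pull (fst X P) x) :=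
    ht_mem h1 (deg_pow (C.pull_mem _ hP.deg) _)
  rw [h2, T.symm (i := i) (j := i + P.dim) (by rw [dim_prod]; omega) h1 h4,
    ← T.proj (fst X P) (i := i + P.dim) (j := i) (by rw [dim_prod]; omega) h4 hx] at h3
  rw [pow_zero, one_mul]
  have h5 := push_pull_pow hP (X := X) x
  rw [show C.down (fst X P) (C.pull (snd X P) h ^ P.dim * C.pull (fst X P) x) = x from h5] at h3
  exact h3

lemma co_pow {i : ℕ} {z : C.A (X.prod P)} (hz : HomTriv H i z) (n : ℕ) :
    ∀ a ≤ P.dim, a < n → ∃ u : C.A X, HomTriv H (i + n - a - 1) u ∧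
      co h a (pol L h ^ n * z) = L * u := by
  have hpol : C.Deg 1 (pol L h) := (C.gr _ 1).add_mem (C.pull_mem _ hL) (C.pull_mem _ hP.deg)
  induction n with
  | zero => intro a _ h0; omega
  | succ n ih =>
    intro a ha han
    have h1 : HomTriv H (i + n) (pol L h ^ n * z) := ht_mem hz (deg_pow hpol n)
    have h2 : HomTriv H (i + n - a) (co h a (pol L h ^ n * z)) := ht_co hP ha (by omega) h1
    rw [pow_succ', mul_assoc, show i + (n + 1) - a - 1 = i + n - a by omega]
    rcases a with - | a
    · exact ⟨_, h2, co_pol_zero hP _⟩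
    · obtain ⟨u, hu, hu2⟩ := ih a (by omega) (by omega)
      refine ⟨co h (a + 1) (pol L h ^ n * z) + u, ht_add h2 ?_, ?_⟩
      · rwa [show i + n - (a + 1) = i + n - a - 1 by omega]
      · rw [co_pol_succ (by omega), hu2, mul_add]

/-- the Lefschetz statement descends from `X × P` to `X` -/
theorem lefschetz_lower {i : ℕ} (hQ : Lefschetz H (X.prod P) (pol L h) i (P.dim + 1)) :
    Lefschetz H X L i 1 := by
  obtain ⟨hinj, hsurj⟩ := hQ
  constructor
  · intro x hx hxk
    rw [pow_one] at hxk
    have h1 := hinj _ (ht_pull (fst X P) hx) (by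
      rw [pol_pow_pull hP hxk, pow_zero_of hP (Nat.lt_succ_self _), zero_mul])
    rw [← push_pull_pow hP x, h1, mul_zero, map_zero]
  · intro y hy
    have h1 : HomTriv H (i + (P.dim + 1)) (C.pull (snd X P) h ^ P.dim * C.pull (fst X P) y) := by
      have := ht_mem (ht_pull (H := H) (fst X P) hy) (deg_pow (C.pull_mem (snd X P) hP.deg) P.dim)
      rwa [show i + 1 + P.dim = i + (P.dim + 1) by omega] at this
    obtain ⟨z, hz, hz2⟩ := hsurj _ h1
    obtain ⟨u, hu, hu2⟩ := co_pow hP hL hz (P.dim + 1) P.dim le_rfl (by omega)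
    rw [hz2, co, Nat.sub_self, pow_zero, mul_one, push_pull_pow hP] at hu2
    refine ⟨u, ?_, by rw [pow_one]; exact hu2.symm⟩
    rwa [show i + (P.dim + 1) - P.dim - 1 = i by omega] at hu

end main

end Pool.Agent.U935.HT
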